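import Mathlib
import Pool.Agent.Q21.HB

/-!
# Finite orbits in the horofunction boundary: virtually abelian groups, every Cayley metric
-/

set_option autoImplicit false

open Filter Topology

namespace Pool.Agent.Results.MP_3614fc_al.VirtuallyAbelian

open Pool.Agent.Q21.HB

/-- Let `G` be an infinite group with an abelian subgroup of finite index and `S` any finite
symmetric generating set of `G`. Some horofunction of the word metric of `S` has a finite orbit. -/
theorem result :
    ∀ (G : Type) [Group G], Infinite G →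
      (∃ A : Subgroup G, A.FiniteIndex ∧ ∀ a ∈ A, ∀ b ∈ A, a * b = b * a) →
      ∀ S : Finset G, (∀ s ∈ S, s⁻¹ ∈ S) → Subgroup.closure (S : Set G) = ⊤ →
        ∃ f : G → ℝ,
          (∃ x : ℕ → G,
            Tendsto (fun n : ℕ => ((sInf {m : ℕ | ∃ l : List G, l.length = m ∧
                (∀ s ∈ l, s ∈ S) ∧ l.prod = (x n)⁻¹} : ℕ) : ℝ)) atTop atTop ∧
            ∀ y : G, Tendsto (fun n : ℕ =>
                ((sInf {m : ℕ | ∃ l : List G, l.length = m ∧
                  (∀ s ∈ l, s ∈ S) ∧ l.prod = (x n)⁻¹ * y} : ℕ) : ℝ) -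
                ((sInf {m : ℕ | ∃ l : List G, l.length = m ∧
                  (∀ s ∈ l, s ∈ S) ∧ l.prod = (x n)⁻¹} : ℕ) : ℝ))
              atTop (nhds (f y))) ∧
          (Set.range (fun g : G => fun y : G => f (g⁻¹ * y) - f g⁻¹)).Finite := by
  intro G _ hinf ⟨A, hA, hcomm⟩ S hs hS
  have hcl := Pool.Agent.H205R3.Horo.countable_closure A hA hcomm S hS
  have hcG : Countable G := Pool.Agent.H205R3.Horo.countable_group hS
  obtain ⟨f, hf, hfin⟩ := main hs hS hcl
  refine ⟨fun y => ((f y : ℤ) : ℝ), exists_seq hf, ?_⟩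
  refine (hfin.image fun f : G → ℤ => fun y => ((f y : ℤ) : ℝ)).subset ?_
  rintro _ ⟨g, rfl⟩
  refine ⟨act g f, ⟨g, rfl⟩, ?_⟩
  funext y
  simp [act]

end Pool.Agent.Results.MP_3614fc_al.VirtuallyAbelian
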